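import Pool.Agent.Y772.HG.Res
import Pool.Agent.Y773.HG.Ent
import Pool.Agent.Y773.IQ.Ray
import Pool.Agent.Y773.D4.Def

/-!
# Weak Selberg orthonormality of the coefficients (degree four)

Author helper383 (job D4-SEL of helper773).
-/

set_option autoImplicit false

open NumberField Complex Filter Topology Ideal

namespace Pool.Agent.Y383.D4

open Pool.Agent.Y773 (VM cc rs gal TPos LI)
open Pool.Agent.Y773.D4
open Pool.Agent.Y773.G (IsPrimChar IsModChar)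
open Pool.Agent.Y772.NZ (one one_ne one_norm)
open Pool.Agent.Y772.SL (av av_add selE_of lim_av lim_one res res_of res_not rs_norm)

section

variable {M : Type} [Field M] [NumberField M] [Algebra GaussianInt (𝓞 M)]
  {σ : M ≃ₐ[ℚ] M} {Nm : Ideal (𝓞 M) →*₀ Ideal GaussianInt}

omit [Algebra GaussianInt (𝓞 M)] in
lemma gal_eq (σ : M ≃ₐ[ℚ] M) (φ : Ideal (𝓞 M) →*₀ ℂ) (𝔞 : Ideal (𝓞 M)) :
    gal σ.toRingEquiv φ 𝔞 = φ (cj σ 𝔞) := rfl

omit [Algebra GaussianInt (𝓞 M)] in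
lemma rs_eq (σ : M ≃ₐ[ℚ] M) (φ : Ideal (𝓞 M) →*₀ ℂ) (𝔞 : Ideal (𝓞 M)) :
    rs σ.toRingEquiv φ 𝔞 = φ 𝔞 * (starRingEnd ℂ) (φ (cj σ 𝔞)) := rfl

omit [Algebra GaussianInt (𝓞 M)] in
lemma cj_coprime {I J : Ideal (𝓞 M)} (h : IsCoprime I J) : IsCoprime (cj σ I) (cj σ J) := by
  unfold cj
  rw [Ideal.isCoprime_iff_sup_eq, ← Ideal.map_sup, Ideal.isCoprime_iff_sup_eq.1 h, Ideal.map_top]

omit [Algebra GaussianInt (𝓞 M)] in
lemma cj_bot : cj σ (⊥ : Ideal (𝓞 M)) = ⊥ := Ideal.map_bot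

omit [Algebra GaussianInt (𝓞 M)] in
lemma cj_top : cj σ (⊤ : Ideal (𝓞 M)) = ⊤ := Ideal.map_top _

lemma mem_cj (hR : Rel σ Nm) (hT : Tls σ Nm) {I : Ideal (𝓞 M)} {x : 𝓞 M} :
    x ∈ cj σ I ↔ sg σ x ∈ I := by
  constructor
  · intro h
    have h1 : sg σ x ∈ cj σ (cj σ I) := Ideal.mem_map_of_mem _ h
    rwa [hT.cj_cj] at h1
  · intro h
    have h1 : sg σ (sg σ x) ∈ cj σ I := Ideal.mem_map_of_mem _ h
    rwa [hR.sg2] at h1

lemma cop_cj (hT : Tls σ Nm) {I J : Ideal (𝓞 M)} :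
    IsCoprime (cj σ I) J ↔ IsCoprime I (cj σ J) := by
  constructor
  · intro h
    have := cj_coprime (σ := σ) h
    rwa [hT.cj_cj] at this
  · intro h
    have := cj_coprime (σ := σ) h
    rwa [hT.cj_cj] at this

lemma sg_ne (hR : Rel σ Nm) {x : 𝓞 M} (h : x ≠ 0) : sg σ x ≠ 0 := by
  intro h0
  apply h
  rw [← hR.sg2 x, h0, map_zero]

/-- the conjugate of a primitive character -/
lemma prim_gal (hR : Rel σ Nm) (hT : Tls σ Nm) {𝔣 : Ideal (𝓞 M)} {φ : Ideal (𝓞 M) →*₀ ℂ}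
    (hφ : IsPrimChar M 𝔣 φ) : IsPrimChar M (cj σ 𝔣) (gal σ.toRingEquiv φ) where
  ne_bot := by
    intro h
    apply hφ.ne_bot
    rw [← hT.cj_cj 𝔣, h, cj_bot]
  supp 𝔞 h0 := by
    rw [gal_eq, hφ.supp, cop_cj hT]
    intro h
    apply h0
    rw [← hT.cj_cj 𝔞, h, cj_bot]
  ray x hx0 hx _ := by
    rw [gal_eq, hT.cj_span]
    refine hφ.ray _ (sg_ne hR hx0) ?_ (hT.tpos _)
    rw [mem_cj hR hT, map_sub, map_one] at hx
    exact hx
  prim 𝔤 hd hne := by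
    obtain ⟨x, h1, -, h2, h3⟩ := hφ.prim (cj σ 𝔤) (by
      have := hT.cj_dvd _ _ hd
      rwa [hT.cj_cj] at this) (by
      intro h
      apply hne
      rw [← hT.cj_cj 𝔤, h])
    refine ⟨sg σ x, ?_, hT.tpos _, ?_, ?_⟩
    · rw [mem_cj hR hT, map_sub, map_one] at h1
      exact h1
    · rw [← hT.cj_span, cop_cj hT, hT.cj_cj]
      exact h2
    · rw [gal_eq, hT.cj_span, hR.sg2]
      exact h3

/-- invariance on the ideals prime to a modulus implies invariance -/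
lemma inv_all (hR : Rel σ Nm) (hT : Tls σ Nm) {𝔣 : Ideal (𝓞 M)} {φ : Ideal (𝓞 M) →*₀ ℂ}
    (hφ : IsPrimChar M 𝔣 φ) {m : ℕ} (hm : 2 ≤ m) (hle : Ideal.span {(m : 𝓞 M)} ≤ 𝔣)
    (h : ∀ 𝔞, IsCoprime 𝔞 (Ideal.span {(m : 𝓞 M)}) → φ (cj σ 𝔞) = φ 𝔞) (𝔞 : Ideal (𝓞 M)) :
    φ (cj σ 𝔞) = φ 𝔞 := by
  have hq0 : Ideal.span {(m : 𝓞 M)} ≠ ⊥ := by
    rw [Ne, Ideal.span_singleton_eq_bot, Nat.cast_eq_zero]
    omega
  have hq1 : Ideal.span {(m : 𝓞 M)} ≠ ⊤ := Pool.Agent.Y772.G.span_ne_top hm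
  have hcq : cj σ (Ideal.span {(m : 𝓞 M)}) = Ideal.span {(m : 𝓞 M)} := by
    rw [hT.cj_span, map_natCast]
  by_cases hf : 𝔣 = ⊤
  · by_cases h0 : 𝔞 = ⊥
    · rw [h0, cj_bot]
    obtain ⟨y, 𝔟, -, hy2, hy3⟩ := Pool.Agent.Y773.IQ.exists_moving hle hq0 h0 (by
      rw [hf, Ideal.isCoprime_iff_sup_eq, sup_top_eq])
    have hb0 : 𝔟 ≠ ⊥ := by
      rintro rfl
      rw [Ideal.isCoprime_iff_sup_eq, bot_sup_eq] at hy3
      exact hq1 hy3
    have hy0 : y ≠ 0 := by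
      rintro rfl
      rw [Ideal.span_singleton_eq_bot.2 rfl] at hy2
      exact mul_ne_zero h0 hb0 hy2.symm
    have e1 := hφ.ray y hy0 (by rw [hf]; trivial) (hT.tpos y)
    have e2 := hφ.ray (sg σ y) (sg_ne hR hy0) (by rw [hf]; trivial) (hT.tpos _)
    rw [hy2, map_mul] at e1
    rw [← hT.cj_span, hy2, hT.cj_mul, map_mul, h 𝔟 hy3] at e2
    have h5 : φ 𝔟 ≠ 0 := by
      intro h6
      rw [h6, mul_zero] at e1
      exact zero_ne_one e1
    exact mul_right_cancel₀ h5 (e2.trans e1.symm)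
  · have h1 := prim_gal hR hT hφ
    have hf' : cj σ 𝔣 ≠ ⊤ := by
      intro h2
      apply hf
      rw [← hT.cj_cj 𝔣, h2, cj_top]
    have hd := Ideal.dvd_iff_le.2 hle
    have hd' : cj σ 𝔣 ∣ Ideal.span {(m : 𝓞 M)} := by
      rw [← hcq]
      exact hT.cj_dvd _ _ hd
    have h2 := Pool.Agent.Y773.IQ.prim_unique hT.tpos hq0 h1 hφ hd' hd hf' hf
      (fun 𝔞 ha => by rw [gal_eq]; exact h 𝔞 ha)
    have h3 := DFunLike.congr_fun h2 𝔞
    rwa [gal_eq] at h3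


open Pool.Agent.Y772.DK (NN NN_finite sum_VM_le VM_nonneg VM_pow)

open Classical in
lemma be_eq (hR : Rel σ Nm) (φ : Ideal (𝓞 M) →*₀ ℂ) {m : ℕ} {𝔫 : Ideal GaussianInt}
    (h : nI 𝔫 = m) :
    be Nm φ 𝔫 = ∑ 𝔞 ∈ (NN_finite (K := M) m).toFinset.filter (fun 𝔞 => Nm 𝔞 = 𝔫),
      (VM 𝔞 : ℂ) * φ 𝔞 := by
  unfold be
  have hs : {𝔞 : Ideal (𝓞 M) | Nm 𝔞 = 𝔫} =
      ↑((NN_finite (K := M) m).toFinset.filter (fun 𝔞 => Nm 𝔞 = 𝔫)) := by
    ext 𝔞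
    rw [Finset.coe_filter, Set.mem_ofPred_eq, Set.mem_ofPred_eq, Set.Finite.mem_toFinset]
    constructor
    · intro h1
      refine ⟨?_, h1⟩
      change absNorm 𝔞 = m
      rw [← hR.nm3, h1, h]
    · exact fun h1 => h1.2
  rw [hs, finsum_mem_coe_finset]

open Classical in
lemma sum_be (hR : Rel σ Nm) (φ : Ideal (𝓞 M) →*₀ ℂ) (m : ℕ) :
    ∑ᶠ 𝔫 ∈ {𝔫 : Ideal GaussianInt | nI 𝔫 = m}, ‖be Nm φ 𝔫‖ ^ 2 =
      ∑ 𝔫 ∈ (NN_finite (K := M) m).toFinset.image Nm,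
        ‖∑ 𝔞 ∈ (NN_finite (K := M) m).toFinset.filter (fun 𝔞 => Nm 𝔞 = 𝔫),
          (VM 𝔞 : ℂ) * φ 𝔞‖ ^ 2 := by
  rw [finsum_mem_eq_sum_of_inter_support_eq (t := (NN_finite (K := M) m).toFinset.image Nm)]
  · refine Finset.sum_congr rfl fun 𝔫 h𝔫 => ?_
    obtain ⟨𝔞, h𝔞, rfl⟩ := Finset.mem_image.1 h𝔫
    have h1 : absNorm 𝔞 = m := (NN_finite (K := M) m).mem_toFinset.1 h𝔞
    rw [be_eq hR φ (m := m) (by rw [hR.nm3, h1])]
  · ext 𝔫
    constructor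
    · rintro ⟨h1, h2⟩
      refine ⟨?_, h2⟩
      have h1' : nI 𝔫 = m := h1
      have h3 : ((NN_finite (K := M) m).toFinset.filter (fun 𝔞 => Nm 𝔞 = 𝔫)).Nonempty := by
        by_contra h3
        rw [Finset.not_nonempty_iff_eq_empty] at h3
        rw [Function.mem_support, be_eq hR φ h1', h3] at h2
        simp at h2
      obtain ⟨𝔞, h𝔞⟩ := h3
      rw [Finset.mem_filter] at h𝔞
      exact Finset.mem_coe.2 (Finset.mem_image.2 ⟨𝔞, h𝔞.1, h𝔞.2⟩)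
    · rintro ⟨h1, h2⟩
      refine ⟨?_, h2⟩
      obtain ⟨𝔞, h𝔞, rfl⟩ := Finset.mem_image.1 (Finset.mem_coe.1 h1)
      have h1 : absNorm 𝔞 = m := (NN_finite (K := M) m).mem_toFinset.1 h𝔞
      change nI (Nm 𝔞) = m
      rw [hR.nm3, h1]

/-- the coefficients are bounded -/
lemma cS_le (hR : Rel σ Nm) {φ : Ideal (𝓞 M) →*₀ ℂ} (hφ1 : ∀ 𝔞, ‖φ 𝔞‖ ≤ 1) (m : ℕ) :
    ‖cS Nm φ m‖ ≤ 4 := by
  classical
  unfold cS
  rw [Complex.norm_real, Real.norm_eq_abs]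
  by_cases hΛ : ArithmeticFunction.vonMangoldt m = 0
  · rw [hΛ, div_zero, abs_zero]
    norm_num
  · have hΛ0 : 0 < ArithmeticFunction.vonMangoldt m :=
      lt_of_le_of_ne ArithmeticFunction.vonMangoldt_nonneg (Ne.symm hΛ)
    rw [abs_of_nonneg (div_nonneg (Real.sqrt_nonneg _) hΛ0.le), div_le_iff₀ hΛ0,
      Real.sqrt_le_left (by positivity), sum_be hR]
    have h1 : ∀ 𝔫 ∈ (NN_finite (K := M) m).toFinset.image Nm,
        ‖∑ 𝔞 ∈ (NN_finite (K := M) m).toFinset.filter (fun 𝔞 => Nm 𝔞 = 𝔫),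
          (VM 𝔞 : ℂ) * φ 𝔞‖ ^ 2 ≤
        (∑ 𝔞 ∈ (NN_finite (K := M) m).toFinset.filter (fun 𝔞 => Nm 𝔞 = 𝔫), VM 𝔞) ^ 2 := by
      intro 𝔫 _
      refine pow_le_pow_left₀ (norm_nonneg _) ((norm_sum_le _ _).trans ?_) 2
      refine Finset.sum_le_sum fun 𝔞 _ => ?_
      rw [norm_mul, Complex.norm_real, Real.norm_of_nonneg (VM_nonneg 𝔞)]
      exact mul_le_of_le_one_right (VM_nonneg 𝔞) (hφ1 𝔞)
    refine (Finset.sum_le_sum h1).trans ?_
    refine (Finset.sum_sq_le_sq_sum_of_nonneg fun 𝔫 _ =>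
      Finset.sum_nonneg fun 𝔞 _ => VM_nonneg 𝔞).trans ?_
    refine pow_le_pow_left₀ (Finset.sum_nonneg fun 𝔫 _ =>
      Finset.sum_nonneg fun 𝔞 _ => VM_nonneg 𝔞) ?_ 2
    rw [Finset.sum_fiberwise_of_maps_to (fun 𝔞 h𝔞 => Finset.mem_image_of_mem Nm h𝔞)]
    have h2 := sum_VM_le (K := M) m
    rw [finsum_mem_eq_finite_toFinset_sum _ (NN_finite m), hR.deg] at h2
    exact_mod_cast h2

omit [Algebra GaussianInt (𝓞 M)] in
lemma VM_prime {p : ℕ} (hp : p.Prime) {P : Ideal (𝓞 M)} (h : absNorm P = p) :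
    VM P = Real.log p := by
  have h1 := Pool.Agent.Y772.NZ.prime_of_norm hp h
  have h0 := Pool.Agent.Y772.SL.ne_bot_of_norm hp h
  have h2 := VM_pow (Ideal.prime_of_isPrime h0 h1) one_ne_zero
  rw [pow_one, h] at h2
  exact h2

lemma norm_cj (hR : Rel σ Nm) (P : Ideal (𝓞 M)) : absNorm (cj σ P) = absNorm P := by
  rw [← hR.nm3, hR.nm4, hR.nm3]

/-- two prime ideals of norm `p` with the same relative norm are equal or conjugate -/
lemma fib (hR : Rel σ Nm) {p : ℕ} (hp : p.Prime) {P Q : Ideal (𝓞 M)}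
    (hP : absNorm P = p) (hQ : absNorm Q = p) (h : Nm Q = Nm P) : Q = P ∨ Q = cj σ P := by
  have hPp := Ideal.prime_of_isPrime (Pool.Agent.Y772.SL.ne_bot_of_norm hp hP)
    (Pool.Agent.Y772.NZ.prime_of_norm hp hP)
  have hQp := Ideal.prime_of_isPrime (Pool.Agent.Y772.SL.ne_bot_of_norm hp hQ)
    (Pool.Agent.Y772.NZ.prime_of_norm hp hQ)
  have hP' : absNorm (cj σ P) = p := by rw [norm_cj hR, hP]
  have hPp' := Ideal.prime_of_isPrime (Pool.Agent.Y772.SL.ne_bot_of_norm hp hP')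
    (Pool.Agent.Y772.NZ.prime_of_norm hp hP')
  have h1 : Q ∣ P * cj σ P := by
    rw [← hR.nm2, ← h, hR.nm2]
    exact dvd_mul_right _ _
  rcases hQp.dvd_or_dvd h1 with h2 | h2
  · left
    exact associated_iff_eq.1 (hQp.associated_of_dvd hPp h2)
  · right
    exact associated_iff_eq.1 (hQp.associated_of_dvd hPp' h2)

lemma sq_pair {a b : ℂ} (ha : ‖a‖ = 1) (hb : ‖b‖ = 1) :
    ‖a + b‖ ^ 2 = (1 + (a * (starRingEnd ℂ) b).re) + (1 + (b * (starRingEnd ℂ) a).re) := by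
  have h1 : a.re * a.re + a.im * a.im = 1 := by
    have := Complex.sq_norm a
    rw [ha, Complex.normSq_apply] at this
    linarith
  have h2 : b.re * b.re + b.im * b.im = 1 := by
    have := Complex.sq_norm b
    rw [hb, Complex.normSq_apply] at this
    linarith
  rw [Complex.sq_norm, Complex.normSq_apply]
  simp only [add_re, add_im, mul_re, conj_re, conj_im]
  linarith

open Classical in
/-- the value at the primes -/
lemma cS_prime (hR : Rel σ Nm) (hT : Tls σ Nm) {φ : Ideal (𝓞 M) →*₀ ℂ} {p : ℕ} (hp : p.Prime)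
    (h1 : ∀ P : Ideal (𝓞 M), absNorm P = p → ‖φ P‖ = 1)
    (h2 : ∀ P : Ideal (𝓞 M), absNorm P = p → cj σ P ≠ P) :
    ‖cS Nm φ p‖ ^ 2 = ∑ 𝔞 ∈ (NN_finite (K := M) p).toFinset,
      (1 + (φ 𝔞 * (starRingEnd ℂ) (φ (cj σ 𝔞))).re) := by
  have hlog : Real.log p ≠ 0 := Real.log_ne_zero_of_pos_of_ne_one
    (by exact_mod_cast hp.pos) (by exact_mod_cast hp.one_lt.ne')
  unfold cS
  rw [Complex.norm_real, Real.norm_eq_abs, sq_abs, div_pow, Real.sq_sqrt, sum_be hR,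
    ArithmeticFunction.vonMangoldt_apply_prime hp, div_eq_iff (pow_ne_zero 2 hlog)]
  · rw [← Finset.sum_fiberwise_of_maps_to (s := (NN_finite (K := M) p).toFinset)
      (t := (NN_finite (K := M) p).toFinset.image Nm) (g := Nm)
      (fun 𝔞 h𝔞 => Finset.mem_image_of_mem Nm h𝔞), Finset.sum_mul]
    refine Finset.sum_congr rfl fun 𝔫 h𝔫 => ?_
    obtain ⟨P, hP, rfl⟩ := Finset.mem_image.1 h𝔫
    have hPn : absNorm P = p := (Pool.Agent.Y772.DK.NN_finite (K := M) p).mem_toFinset.1 hP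
    have hP' : absNorm (cj σ P) = p := by rw [norm_cj hR, hPn]
    have hf : (NN_finite (K := M) p).toFinset.filter (fun 𝔞 => Nm 𝔞 = Nm P) = {P, cj σ P} := by
      ext Q
      rw [Finset.mem_filter, Set.Finite.mem_toFinset, Finset.mem_insert, Finset.mem_singleton]
      constructor
      · rintro ⟨hQ, hQ'⟩
        exact fib hR hp hPn hQ hQ'
      · rintro (rfl | rfl)
        · exact ⟨hPn, rfl⟩
        · exact ⟨hP', hR.nm4 P⟩
    rw [hf, Finset.sum_pair (h2 P hPn).symm, Finset.sum_pair (h2 P hPn).symm, VM_prime hp hPn,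
      VM_prime hp hP', hT.cj_cj, ← mul_add, norm_mul, mul_pow, Complex.norm_real,
      Real.norm_eq_abs, sq_abs, sq_pair (h1 P hPn) (h1 _ hP'), mul_comm]
  · refine finsum_nonneg fun 𝔫 => finsum_nonneg fun _ => sq_nonneg _

/-- a Gaussian integer of prime norm is a prime element -/
lemma gauss_prime {p : ℕ} (hp : p.Prime) {z : GaussianInt} (h : z.norm.natAbs = p) : Prime z := by
  refine Irreducible.prime ⟨?_, ?_⟩
  · intro hu
    rw [Zsqrtd.norm_eq_one_iff.2 hu] at h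
    exact hp.one_lt.ne h
  · intro a b hab
    rw [hab, Zsqrtd.norm_mul, Int.natAbs_mul] at h
    rcases (Nat.Prime.eq_one_or_self_of_dvd hp a.norm.natAbs ⟨_, h.symm⟩) with h1 | h1
    · exact Or.inl (Zsqrtd.norm_eq_one_iff.1 h1)
    · right
      rw [h1] at h
      have h2 : b.norm.natAbs = 1 := by
        have := hp.pos
        exact Nat.eq_of_mul_eq_mul_left this (by rw [h, mul_one])
      exact Zsqrtd.norm_eq_one_iff.1 h2

/-- unramified primes of degree one are not invariant -/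
lemma cj_ne (hR : Rel σ Nm) {R : ℕ}
    (hunr : ∀ p : GaussianInt, Prime p → ¬ p ∣ (R : GaussianInt) →
      ∀ P : Ideal (𝓞 M), Prime P → ¬ P ^ 2 ∣ up M p) {p : ℕ} (hp : p.Prime) (hpR : ¬ p ∣ R)
    {P : Ideal (𝓞 M)} (hP : absNorm P = p) : cj σ P ≠ P := by
  intro h
  set z := Submodule.IsPrincipal.generator (Nm P) with hz
  have hn : z.norm.natAbs = p := by
    have := hR.nm3 P
    rw [hP] at this
    exact this
  have hzp := gauss_prime hp hn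
  have hzR : ¬ z ∣ (R : GaussianInt) := by
    rintro ⟨w, hw⟩
    have h1 := congrArg (fun t : GaussianInt => t.norm.natAbs) hw
    simp only [Zsqrtd.norm_mul, Int.natAbs_mul] at h1
    rw [Zsqrtd.norm_natCast, hn, Int.natAbs_mul, Int.natAbs_natCast] at h1
    exact hpR (((hp.dvd_mul).1 ⟨_, h1⟩).elim id id)
  refine hunr z hzp hzR P (Ideal.prime_of_isPrime (Pool.Agent.Y772.SL.ne_bot_of_norm hp hP)
    (Pool.Agent.Y772.NZ.prime_of_norm hp hP)) ?_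
  have h1 := hR.nm2 P
  rw [h, ← Ideal.span_singleton_generator (Nm P), ← hz, Ideal.map_span, Set.image_singleton] at h1
  rw [sq, ← h1]
  exact dvd_refl _

end

/-- **SEL** for primitive characters of arbitrary conductor (the conductor may be the unit ideal) -/
theorem sel_gen (hTL : St_TL) (hU : St_UNR) (M : Type) [Field M] [NumberField M]
    [Algebra GaussianInt (𝓞 M)] (σ : M ≃ₐ[ℚ] M) (Nm : Ideal (𝓞 M) →*₀ Ideal GaussianInt)
    (hR : Rel σ Nm) (𝔣 : Ideal (𝓞 M)) (φ : Ideal (𝓞 M) →*₀ ℂ)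
    (hφ : Pool.Agent.Y773.G.IsPrimChar M 𝔣 φ) (hne : ∃ 𝔞, φ (cj σ 𝔞) ≠ φ 𝔞) :
    W388.SelE (cS Nm φ) := by
  classical
  have hT := hTL M σ Nm hR
  obtain ⟨R, hR0, hunr⟩ := hU M σ Nm hR
  have hφ1 : ∀ 𝔞, ‖φ 𝔞‖ ≤ 1 := Pool.Agent.Y772.G.prim_norm_le hφ
  -- the modulus
  set m : ℕ := 2 * absNorm 𝔣 with hm
  have hN0 : absNorm 𝔣 ≠ 0 := by rw [Ne, absNorm_eq_zero_iff]; exact hφ.ne_bot
  have hm2 : 2 ≤ m := by
    have := Nat.pos_of_ne_zero hN0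
    omega
  have hq0 : Ideal.span {(m : 𝓞 M)} ≠ ⊥ := by
    rw [Ne, Ideal.span_singleton_eq_bot, Nat.cast_eq_zero]
    omega
  have hq1 := Pool.Agent.Y772.G.span_ne_top (K := M) hm2
  have hcq : cj σ (Ideal.span {(m : 𝓞 M)}) = Ideal.span {(m : 𝓞 M)} := by
    rw [hT.cj_span, map_natCast]
  have hle : Ideal.span {(m : 𝓞 M)} ≤ 𝔣 := by
    rw [Ideal.span_singleton_le_iff_mem, hm]
    push_cast
    exact Ideal.mul_mem_left _ _ (absNorm_mem 𝔣)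
  obtain ⟨e, he⟩ := Pool.Agent.Y772.G.res_mod hφ hq0 hq1 hle
  set η := res (Ideal.span {(m : 𝓞 M)}) φ with hη
  obtain ⟨e', he'⟩ := Pool.Agent.Y772.G.rs_mod he σ
  have hcont : ∃ 𝔞, IsCoprime 𝔞 (Ideal.span {(m : 𝓞 M)}) ∧ rs σ.toRingEquiv η 𝔞 ≠ 1 := by
    by_contra hcon
    push Not at hcon
    obtain ⟨𝔞, h𝔞⟩ := hne
    refine h𝔞 (inv_all hR hT hφ hm2 hle (fun 𝔟 hb => ?_) 𝔞)
    have h3 : IsCoprime (cj σ 𝔟) (Ideal.span {(m : 𝓞 M)}) := by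
      rw [cop_cj hT, hcq]
      exact hb
    have h2 := hcon 𝔟 hb
    rw [rs_eq] at h2
    have h4 := Pool.Agent.Y772.G.mc_norm he h3
    have h5 : (starRingEnd ℂ) (η (cj σ 𝔟)) * η (cj σ 𝔟) = 1 := by
      rw [mul_comm, Complex.mul_conj, Complex.normSq_eq_norm_sq, h4]
      simp
    have h6 : η (cj σ 𝔟) = η 𝔟 := by
      calc η (cj σ 𝔟) = (η 𝔟 * (starRingEnd ℂ) (η (cj σ 𝔟))) * η (cj σ 𝔟) := by rw [h2, one_mul]
        _ = η 𝔟 := by rw [mul_assoc, h5, mul_one]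
    rwa [hη, res_of h3, res_of hb] at h6
  obtain ⟨g, hg, hg0, hgs⟩ := Pool.Agent.Y772.G.reg_one Pool.Agent.Y773.G.t_ent he' hcont
  have hη1 := Pool.Agent.Y772.G.mc_le he
  have l1 := lim_av Pool.Agent.Y772.DK.t_dirK _ (rs_norm hη1 σ) hg hg0 hgs
  have l2 := lim_one Pool.Agent.Y772.DK.t_dirK M
  obtain ⟨A, hA, hDK⟩ := Pool.Agent.Y772.DK.t_dirK M
  have b1 : ∀ k, |(cc (one M) k).re| ≤ 4 := fun k => by
    have := (abs_re_le_norm _).trans ((hDK (one M) (one_norm M)).2.2.2.2.2.2.1 k)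
    rw [hR.deg] at this
    exact_mod_cast this
  have b2 : ∀ k, |(cc (rs σ.toRingEquiv η) k).re| ≤ 4 := fun k => by
    have := (abs_re_le_norm _).trans ((hDK _ (rs_norm hη1 σ)).2.2.2.2.2.2.1 k)
    rw [hR.deg] at this
    exact_mod_cast this
  refine selE_of (cS Nm φ) (cS_le hR hφ1)
    (fun k => (cc (one M) k).re + (cc (rs σ.toRingEquiv η) k).re) (A := 4 + 4)
    (fun k => (abs_add_le _ _).trans (add_le_add (b1 k) (b2 k)))
    ((R * m).primeFactors) ?_ ?_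
  · intro p hp hpS
    have hRm : R * m ≠ 0 := mul_ne_zero hR0 (by omega)
    have hpRm : ¬ p ∣ R * m := fun h => hpS (Nat.mem_primeFactors.2 ⟨hp, h, hRm⟩)
    have hpR : ¬ p ∣ R := fun h => hpRm (h.mul_right _)
    have hpm : ¬ p ∣ m := fun h => hpRm (h.mul_left _)
    have hcop : ∀ P : Ideal (𝓞 M), absNorm P = p → IsCoprime P (Ideal.span {(m : 𝓞 M)}) :=
      fun P hP => Pool.Agent.Y772.G.coprime_of_norm hp hP hpm
    have hun : ∀ P : Ideal (𝓞 M), absNorm P = p → ‖φ P‖ = 1 := fun P hP =>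
      Pool.Agent.Y772.G.prim_norm_one hφ (Pool.Agent.Y772.SL.ne_bot_of_norm hp hP)
        (Pool.Agent.Y773.IQ.cop_mono hle (hcop P hP))
    rw [cS_prime hR hT hp hun fun P hP => cj_ne hR hunr hp hpR hP]
    have c1 := (hDK (one M) (one_norm M)).2.2.2.2.2.2.2.1 p hp
    have c2 := (hDK _ (rs_norm hη1 σ)).2.2.2.2.2.2.2.1 p hp
    have hset : {𝔭 : Ideal (𝓞 M) | absNorm 𝔭 = p} = Pool.Agent.Y772.DK.NN M p := rfl
    rw [hset, finsum_mem_eq_finite_toFinset_sum _ (Pool.Agent.Y772.DK.NN_finite p)] at c1 c2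
    rw [c1, c2, re_sum, re_sum, ← Finset.sum_add_distrib]
    refine Finset.sum_congr rfl fun P hP => ?_
    have hPn : absNorm P = p := (Pool.Agent.Y772.DK.NN_finite (K := M) p).mem_toFinset.1 hP
    have hP' : absNorm (cj σ P) = p := by rw [norm_cj hR, hPn]
    rw [rs_eq, hη, res_of (hcop P hPn), res_of (hcop _ hP'),
      one_ne M (Pool.Agent.Y772.SL.ne_bot_of_norm hp hPn), one_re]
  · have h4 := l2.add l1
    rw [add_zero] at h4
    refine h4.congr' ?_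
    filter_upwards [self_mem_nhdsWithin] with x hx
    rw [← av_add b1 b2 hx]

/-- **SEL** -/
theorem t_sel (hTL : St_TL) (hU : St_UNR) : St_SEL := by
  intro M _ _ _ σ Nm hR 𝔣 φ hφ hne
  exact sel_gen hTL hU M σ Nm hR 𝔣 φ
    ⟨hφ.ne_bot, hφ.supp, fun x _ hx hp => hφ.ray x hx hp, hφ.prim⟩ hne

end Pool.Agent.Y383.D4
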